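import Pool.Agent.N229.SC.Stm

/-!
Project SC (helper229, helper345), problem MP_83fd13_an, part FN2 (helper367): the functions `Q_i`
are holomorphic and uniformly bounded.
-/

set_option autoImplicit false

open Set Filter Topology MeasureTheory

namespace Run7.h367.SC

open Pool.Agent.N229.SC

/-- Part FN2. -/
theorem t_FN2 (hA2 : S_A2) (hAB : S_AB) (hEH : S_EH) : S_FN2 := by
  intro P X h v y hF
  have hG := hF.good
  obtain ⟨-, -, -, -, -, -, hn8⟩ := hAB P hG
  have hn0 : P.n ≠ 0 := by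
    intro h0
    rw [h0] at hn8
    norm_num at hn8
  have hnC : (P.n : ℂ) ≠ 0 := by exact_mod_cast hn0
  have hnR : (P.n : ℝ) ≠ 0 := by exact_mod_cast hn0
  have hρ0 : 0 < P.ρ := lt_of_lt_of_le (by norm_num) hG.rho
  have hρC : (P.ρ : ℂ) ≠ 0 := by exact_mod_cast hρ0.ne'
  have hRad0 : 0 < Rad := lt_of_lt_of_le one_pos one_le_Rad
  have hpow : rF P ^ P.n = Rad := by
    unfold rF
    rw [← Real.rpow_natCast, ← Real.rpow_mul hRad0.le, inv_mul_cancel₀ hnR, Real.rpow_one]
  have ht : ∀ z ∈ Metric.ball (0 : ℂ) (rF P), ‖z ^ P.n‖ < Rad := by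
    intro z hz
    rw [Metric.mem_ball, dist_zero_right] at hz
    rw [norm_pow, ← hpow]
    exact pow_lt_pow_left₀ hz (norm_nonneg z) hn0
  have hmaps : MapsTo (fun z : ℂ => z ^ P.n) (Metric.ball 0 (rF P)) (Metric.ball 0 Rad) := by
    intro z hz
    rw [Metric.mem_ball, dist_zero_right]
    exact ht z hz
  obtain ⟨hWd, hWn, -⟩ := hEH wW (fun j => wA_le_wW j)
  have hcomp : ∀ a : W, DifferentiableOn ℂ (fun z : ℂ => evh a (z ^ P.n))
      (Metric.ball 0 (rF P)) := fun a =>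
    (hWd a).comp (differentiable_pow P.n).differentiableOn hmaps
  have hf : DifferentiableOn ℂ (fF P h) (Metric.ball 0 (rF P)) := by
    have h1 : DifferentiableOn ℂ (fun z : ℂ => (P.ρ : ℂ) * z) (Metric.ball 0 (rF P)) :=
      (differentiable_id.const_mul (P.ρ : ℂ)).differentiableOn
    have h2 := ((hcomp (Phi P h)).div_const (P.n : ℂ)).cexp
    exact h1.mul h2
  have hfn : DifferentiableOn ℂ (fun z : ℂ => (fF P h z / P.ρ) ^ P.n) (Metric.ball 0 (rF P)) :=
    (hf.div_const _).pow P.n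
  constructor
  · intro i
    cases i with
    | zero => exact ((hfn.const_mul _).const_add _).add (hcomp _)
    | succ i => exact ((hfn.const_mul _).const_add _).add (hcomp _)
  · obtain ⟨C, hC⟩ := hF.bd
    have hfb : ∀ z ∈ Metric.ball (0 : ℂ) (rF P),
        ‖(fF P h z / P.ρ) ^ P.n‖ ≤ Rad * Real.exp ‖Phi P h‖ := by
      intro z hz
      have h1 : (fF P h z / P.ρ) ^ P.n = z ^ P.n * Complex.exp (evh (Phi P h) (z ^ P.n)) := by
        unfold fF
        rw [mul_assoc, mul_div_assoc, mul_comm (P.ρ : ℂ), div_mul_cancel₀ _ hρC, mul_pow,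
          ← Complex.exp_nat_mul, mul_div_cancel₀ _ hnC]
      rw [h1, norm_mul]
      refine mul_le_mul (ht z hz).le ?_ (norm_nonneg _) hRad0.le
      rw [Complex.norm_exp]
      refine Real.exp_le_exp.2 ((le_abs_self _).trans ((Complex.abs_re_le_norm _).trans ?_))
      exact hWn _ _ (ht z hz).le
    have hqb : ∀ i, ‖qq P h v y i‖ ≤ ‖qq P h v y 0‖ + 5 / 8 * (5 * X ^ 2) := by
      intro i
      cases i with
      | zero =>
        have : 0 ≤ X ^ 2 := sq_nonneg X
        linarith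
      | succ i =>
        have h1 : ‖qq P h v y (i + 1)‖ ≤ 5 / 8 * ‖y i‖ := hA2.2.2.2.2.2.2.1 P.n (i + 1) (y i)
        have h2 := hF.sol.ny i
        have h3 := norm_nonneg (qq P h v y 0)
        linarith
    refine ⟨(|2 / P.ρ * P.b 0 - P.b 1| + C) + |X| * C * (Rad * Real.exp ‖Phi P h‖) +
      (‖qq P h v y 0‖ + 5 / 8 * (5 * X ^ 2)), ?_⟩
    intro i z hz
    have hC0 : 0 ≤ C := (abs_nonneg _).trans (hC 0).1
    have hmain : ∀ (b : ℝ) (a : ℝ) (q : W), |b| ≤ |2 / P.ρ * P.b 0 - P.b 1| + C → |a| ≤ C →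
        ‖q‖ ≤ ‖qq P h v y 0‖ + 5 / 8 * (5 * X ^ 2) →
        ‖(b : ℂ) + (X * a : ℝ) * (fF P h z / P.ρ) ^ P.n + evh q (z ^ P.n)‖ ≤
        (|2 / P.ρ * P.b 0 - P.b 1| + C) + |X| * C * (Rad * Real.exp ‖Phi P h‖) +
        (‖qq P h v y 0‖ + 5 / 8 * (5 * X ^ 2)) := by
      intro b a q hb ha hq
      refine (norm_add_le _ _).trans (add_le_add ((norm_add_le _ _).trans (add_le_add ?_ ?_)) ?_)
      · rw [Complex.norm_real, Real.norm_eq_abs]
        exact hb
      · rw [norm_mul, Complex.norm_real, Real.norm_eq_abs, abs_mul]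
        exact mul_le_mul (mul_le_mul_of_nonneg_left ha (abs_nonneg _)) (hfb z hz) (norm_nonneg _)
          (mul_nonneg (abs_nonneg _) hC0)
      · exact (hWn _ _ (ht z hz).le).trans hq
    cases i with
    | zero => exact hmain _ _ _ (by linarith) (hC 0).1 (hqb 0)
    | succ i =>
      refine hmain _ _ _ ?_ (hC (i + 1)).1 (hqb (i + 1))
      have := (hC i).2
      have := abs_nonneg (2 / P.ρ * P.b 0 - P.b 1)
      linarith

end Run7.h367.SC
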