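import Pool.Agent.N229.SC.Stm

/-!
Project SC (helper229, helper345), problem MP_83fd13_an, part WK1 (helper367): integrability of
`u = U ∘ f⁻¹` and of its gradient, `u ≠ 0`.
-/

set_option autoImplicit false

open Set Filter Topology MeasureTheory

namespace Run7.h367.SC

open Pool.Agent.N229.SC

/-- Images of open sets are open. -/
theorem im_open (hINJ : S_INJ) {ρ r : ℝ} {f : ℂ → ℂ} (hf : Conf ρ r f) {s : Set ℂ}
    (hs : IsOpen s) (hs' : s ⊆ Metric.ball 0 r) : IsOpen (f '' s) := by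
  obtain ⟨-, hinj⟩ := hINJ ρ r f hf
  have hr0 : 0 < r := zero_lt_one.trans hf.r_gt
  have han : AnalyticOnNhd ℂ f (Metric.ball 0 r) := hf.f_diff.analyticOnNhd Metric.isOpen_ball
  rcases han.is_constant_or_isOpen (convex_ball _ _).isPreconnected with ⟨w, hw⟩ | h
  · exfalso
    have h1 : (0 : ℂ) ∈ Metric.ball (0 : ℂ) r := Metric.mem_ball_self hr0
    have h2 : (1 : ℂ) ∈ Metric.ball (0 : ℂ) r := by
      rw [Metric.mem_ball, dist_zero_right, norm_one]
      exact hf.r_gt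
    have h3 := hinj h1 h2 ((hw 0 h1).trans (hw 1 h2).symm)
    exact zero_ne_one h3
  · exact h s hs' hs

/-- The inverse map is Lipschitz. -/
theorem inv_lip (hINJ : S_INJ) {ρ r : ℝ} {f : ℂ → ℂ} (hf : Conf ρ r f) {z w : ℂ}
    (hz : z ∈ Metric.ball (0 : ℂ) r) (hw : w ∈ Metric.ball (0 : ℂ) r) :
    ‖z - w‖ ≤ 10 / (9 * ρ) * ‖f z - f w‖ := by
  obtain ⟨hL, -⟩ := hINJ ρ r f hf
  have hρ := hf.rho_pos
  have h1 := hL z hz w hw
  have h2 : ‖(ρ : ℂ) * (z - w)‖ = ρ * ‖z - w‖ := by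
    rw [norm_mul, Complex.norm_real, Real.norm_eq_abs, abs_of_pos hρ]
  have h3 : ‖(ρ : ℂ) * (z - w)‖ ≤ ‖f z - f w‖ + ‖f z - f w - ρ * (z - w)‖ := by
    have := norm_sub_le (f z - f w) (f z - f w - ρ * (z - w))
    rwa [sub_sub_cancel] at this
  rw [div_mul_eq_mul_div, le_div_iff₀ (by positivity)]
  rw [h2] at h3
  nlinarith [norm_nonneg (z - w)]

theorem inv_cont (hINJ : S_INJ) {ρ r : ℝ} {f : ℂ → ℂ} (hf : Conf ρ r f) :
    ContinuousOn (Function.invFunOn f (Metric.ball 0 1)) (Om f) := by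
  have hρ := hf.rho_pos
  have hsub : Metric.ball (0 : ℂ) 1 ⊆ Metric.ball 0 r := Metric.ball_subset_ball hf.r_gt.le
  have hL : LipschitzOnWith (Real.toNNReal (10 / (9 * ρ)))
      (Function.invFunOn f (Metric.ball 0 1)) (Om f) := by
    refine LipschitzOnWith.of_dist_le_mul fun x hx y hy => ?_
    rw [dist_eq_norm, dist_eq_norm, Real.coe_toNNReal _ (by positivity)]
    have h1 := inv_lip hINJ hf (hsub (Function.invFunOn_mem hx)) (hsub (Function.invFunOn_mem hy))
    rwa [Function.invFunOn_eq hx, Function.invFunOn_eq hy] at h1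
  exact hL.continuousOn

theorem om_bdd (hINJ : S_INJ) {ρ r : ℝ} {f : ℂ → ℂ} (hf : Conf ρ r f) :
    Bornology.IsBounded (Om f) := by
  obtain ⟨hL, -⟩ := hINJ ρ r f hf
  have hρ := hf.rho_pos
  have hsub : Metric.ball (0 : ℂ) 1 ⊆ Metric.ball 0 r := Metric.ball_subset_ball hf.r_gt.le
  refine (Metric.isBounded_ball (x := (0 : ℂ)) (r := 2 * ρ)).subset ?_
  rintro _ ⟨z, hz, rfl⟩
  have h1 := hL z (hsub hz) 0 (hsub (Metric.mem_ball_self one_pos))
  rw [hf.f_zero, sub_zero, sub_zero] at h1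
  rw [Metric.mem_ball, dist_zero_right] at hz ⊢
  have h2 : ‖(ρ : ℂ) * z‖ = ρ * ‖z‖ := by
    rw [norm_mul, Complex.norm_real, Real.norm_eq_abs, abs_of_pos hρ]
  have h3 : ‖f z‖ ≤ ‖f z - ρ * z‖ + ‖(ρ : ℂ) * z‖ := by
    have := norm_add_le (f z - ρ * z) ((ρ : ℂ) * z)
    rwa [sub_add_cancel] at this
  rw [h2] at h3
  nlinarith [norm_nonneg z]

/-- Part WK1. -/
theorem t_WK1 (hINJ : S_INJ) : S_WK1 := by
  intro ρ r r' c f U S hf hr1 hr' hC
  obtain ⟨hL, hinj⟩ := hINJ ρ r f hf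
  have hρ := hf.rho_pos
  have hsub : Metric.ball (0 : ℂ) 1 ⊆ Metric.ball 0 r' := Metric.ball_subset_ball hr1.le
  have hcl : Metric.closedBall (0 : ℂ) 1 ⊆ Metric.ball 0 r' := Metric.closedBall_subset_ball hr1
  have hsub' : Metric.ball (0 : ℂ) r' ⊆ Metric.ball 0 r := Metric.ball_subset_ball hr'
  have hopen : IsOpen (Om f) := im_open hINJ hf Metric.isOpen_ball (hsub.trans hsub')
  have hbdd := om_bdd hINJ hf
  have hgc := inv_cont hINJ hf
  have hgm : MapsTo (Function.invFunOn f (Metric.ball 0 1)) (Om f) (Metric.ball (0 : ℂ) 1) :=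
    fun x hx => Function.invFunOn_mem hx
  have hU : ContinuousOn U (Metric.ball 0 r') := fun z hz =>
    (hC.U_der z hz).continuousAt.continuousWithinAt
  have hS : ContinuousOn S (Metric.ball 0 r') := hC.S_smooth.continuousOn
  have hd : ContinuousOn (deriv f) (Metric.ball 0 r) :=
    (hf.f_diff.deriv Metric.isOpen_ball).continuousOn
  have hd0 : ∀ z ∈ Metric.ball (0 : ℂ) r, 9 / 10 * ρ ≤ ‖deriv f z‖ := by
    intro z hz
    have h1 := hf.f_der z hz
    have h2 : ‖(ρ : ℂ)‖ ≤ ‖deriv f z‖ + ‖deriv f z - ρ‖ := by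
      have := norm_sub_le (deriv f z) (deriv f z - ρ)
      rwa [sub_sub_cancel] at this
    rw [Complex.norm_real, Real.norm_eq_abs, abs_of_pos hρ] at h2
    linarith
  have hdne : ∀ z ∈ Metric.ball (0 : ℂ) r, deriv f z ≠ 0 := by
    intro z hz h0
    have := hd0 z hz
    rw [h0, norm_zero] at this
    linarith
  obtain ⟨CU, hCU⟩ := (isCompact_closedBall (0 : ℂ) 1).exists_bound_of_continuousOn
    (hU.mono hcl)
  obtain ⟨CS, hCS⟩ := (isCompact_closedBall (0 : ℂ) 1).exists_bound_of_continuousOn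
    (hS.mono hcl)
  have hfin : IsFiniteMeasure (volume.restrict (Om f)) :=
    isFiniteMeasure_restrict.2 hbdd.measure_lt_top.ne
  have hb1 : Metric.ball (0 : ℂ) 1 ⊆ Metric.closedBall 0 1 := Metric.ball_subset_closedBall
  refine ⟨?_, ?_, ?_⟩
  · have hc : ContinuousOn (uF f U) (Om f) := (hU.mono hsub).comp hgc hgm
    refine MemLp.of_bound (hc.aestronglyMeasurable hopen.measurableSet) CU ?_
    refine (ae_restrict_iff' hopen.measurableSet).2 (Filter.Eventually.of_forall fun x hx => ?_)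
    exact hCU _ (hb1 (hgm hx))
  · have hc : ContinuousOn (GF f S) (Om f) := by
      have h1 : ContinuousOn (fun z => starRingEnd ℂ (S z / deriv f z)) (Metric.ball 0 1) := by
        refine Complex.continuous_conj.comp_continuousOn ?_
        exact (hS.mono hsub).div (hd.mono (hsub.trans hsub')) fun z hz => hdne z (hsub' (hsub hz))
      exact h1.comp hgc hgm
    refine MemLp.of_bound (hc.aestronglyMeasurable hopen.measurableSet) (CS / (9 / 10 * ρ)) ?_
    refine (ae_restrict_iff' hopen.measurableSet).2 (Filter.Eventually.of_forall fun x hx => ?_)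
    have h1 := hgm hx
    have h2 := hCS _ (hb1 h1)
    have h3 := hd0 _ (hsub' (hsub h1))
    show ‖starRingEnd ℂ _‖ ≤ _
    rw [RCLike.norm_conj, norm_div]
    exact div_le_div₀ ((norm_nonneg _).trans h2) h2 (by positivity) h3
  · intro h0
    have hVo : IsOpen {z ∈ Metric.ball (0 : ℂ) 1 | U z ≠ 0} :=
      (hU.mono hsub).isOpen_inter_preimage Metric.isOpen_ball isOpen_ne
    have hVn : ({z ∈ Metric.ball (0 : ℂ) 1 | U z ≠ 0}).Nonempty := by
      have h1 : (1 : ℂ) ∈ closure (Metric.ball (0 : ℂ) 1) := by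
        rw [closure_ball _ one_ne_zero, Metric.mem_closedBall, dist_zero_right, norm_one]
      have h2 : (1 : ℂ) ∈ Metric.ball (0 : ℂ) r' := by
        rw [Metric.mem_ball, dist_zero_right, norm_one]
        exact hr1
      have h3 : U 1 ≠ 0 := by
        rw [hC.U_bd 1 norm_one]
        exact hC.c_ne
      have h4 : ∀ᶠ z in 𝓝 (1 : ℂ), U z ≠ 0 :=
        (hC.U_der 1 h2).continuousAt.eventually_ne h3
      obtain ⟨z, hz1, hz2⟩ := mem_closure_iff_nhds.1 h1 _ h4
      exact ⟨z, hz2, hz1⟩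
    have hWo : IsOpen (f '' {z ∈ Metric.ball (0 : ℂ) 1 | U z ≠ 0}) :=
      im_open hINJ hf hVo fun z hz => hsub' (hsub hz.1)
    have hpos := hWo.measure_pos volume (hVn.image f)
    have hWs : f '' {z ∈ Metric.ball (0 : ℂ) 1 | U z ≠ 0} ⊆ Om f := image_mono fun z hz => hz.1
    have hne : ∀ x ∈ f '' {z ∈ Metric.ball (0 : ℂ) 1 | U z ≠ 0}, uF f U x ≠ 0 := by
      rintro _ ⟨z, hz, rfl⟩
      unfold uF
      have h1 : f z ∈ Om f := ⟨z, hz.1, rfl⟩
      have h2 : Function.invFunOn f (Metric.ball 0 1) (f z) = z :=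
        hinj (hsub' (hsub (hgm h1))) (hsub' (hsub hz.1)) (Function.invFunOn_eq h1)
      rw [h2]
      exact hz.2
    have h5 : volume.restrict (Om f) (f '' {z ∈ Metric.ball (0 : ℂ) 1 | U z ≠ 0}) = 0 := by
      refine measure_mono_null (fun x hx => ?_) h0
      exact hne x hx
    rw [Measure.restrict_apply hWo.measurableSet, inter_eq_self_of_subset_left hWs] at h5
    exact hpos.ne' h5

end Run7.h367.SC
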